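import Pool.Agent.Y648.XR.Stm

set_option autoImplicit false

/-!
# Closed walks

`t_CYC`: the product of the ratios along a closed walk of length `k` in the graph of a basis is up
to a factor `2 ^ ((k - 2) ρ)` a product of at most `k - 2` powers of scales of cross ratios.
-/

namespace Pool.Agent.Y648.XR

namespace CycAux

variable {m : ℕ} {L : Submodule ℝ (Fin m → ℝ)} {X : Finset (Fin m)}

theorem ed_symm {a b : Fin m} (h : ed L X a b) : ed L X b a := by
  rcases h with h | h
  · exact Or.inr ⟨h.2.1, h.1, h.2.2⟩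
  · exact Or.inl ⟨h.2.1, h.1, h.2.2⟩

theorem wt_mul {a b : Fin m} (h : ed L X a b) : wt L X a b * wt L X b a = 1 := by
  rcases h with ⟨h1, h2, h3⟩ | ⟨h1, h2, h3⟩
  · simp [wt, h1, h2, h3]
  · simp [wt, h1, h2, h3]

theorem rep {a b : Fin m} {k : ℕ} {w : ℝ} (h : Wk L X a b k w) :
    ∃ p : ℕ → Fin m, p 0 = a ∧ p k = b ∧ (∀ i < k, ed L X (p i) (p (i + 1))) ∧
      w = ∏ i ∈ Finset.range k, wt L X (p i) (p (i + 1)) := by
  induction h with
  | nil a => exact ⟨fun _ => a, rfl, rfl, fun i hi => absurd hi (Nat.not_lt_zero i), by simp⟩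
  | cons a b c k w h hw ih =>
    obtain ⟨q, h0, hk, he, hq⟩ := ih
    refine ⟨fun n => Nat.casesOn n a q, rfl, hk, ?_, ?_⟩
    · intro i hi
      cases i with
      | zero =>
        show ed L X a (q 0)
        rw [h0]; exact h
      | succ i => exact he i (by omega)
    · rw [Finset.prod_range_succ']
      show wt L X a b * w = (∏ i ∈ Finset.range k, wt L X (q i) (q (i + 1))) * wt L X a (q 0)
      rw [h0, hq, mul_comm]

theorem seg (n : ℕ) : ∀ (q : ℕ → Fin m), (∀ s < n, ed L X (q s) (q (s + 1))) →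
    Wk L X (q 0) (q n) n (∏ s ∈ Finset.range n, wt L X (q s) (q (s + 1))) := by
  induction n with
  | zero => intro q _; simpa using Wk.nil (q 0)
  | succ n ih =>
    intro q h
    have h1 := ih (fun s => q (s + 1)) (fun s hs => h (s + 1) (by omega))
    have h2 := Wk.cons (q 0) (q 1) (q (n + 1)) n _ (h 0 (by omega)) h1
    rw [Finset.prod_range_succ', mul_comm]
    exact h2

/-- The entries after a pivot. -/
theorem piv (hPV : S_PV) (hX : IsB L X) {x y a b : Fin m} (hx : x ∈ X) (hy : y ∉ X)
    (hxy : fv L X y x ≠ 0) (ha : a ∉ X) (hay : a ≠ y) (hb : b ∈ X) (hbx : b ≠ x) :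
    a ∉ insert y (X.erase x) ∧ b ∈ insert y (X.erase x) ∧
      fv L (insert y (X.erase x)) a b = fv L X a b - fv L X a x / fv L X y x * fv L X y b := by
  refine ⟨?_, ?_, ?_⟩
  · simp [hay, ha]
  · simp [hb, hbx]
  · have h := ((hPV m L X x y hX hx hy hxy).2.2 a ha hay).1
    rw [h]
    simp

/-- Edges not changed by a pivot. -/
theorem keep (hPV : S_PV) (hX : IsB L X) {x y a b : Fin m} (hx : x ∈ X) (hy : y ∉ X)
    (hxy : fv L X y x ≠ 0) (hab : ed L X a b) (hax : a ≠ x) (hay : a ≠ y) (hbx : b ≠ x)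
    (hby : b ≠ y) (hn : (¬ ed L X a x ∧ ¬ ed L X b x) ∨ (¬ ed L X a y ∧ ¬ ed L X b y) ∨
      (¬ ed L X a x ∧ ¬ ed L X a y) ∨ (¬ ed L X b x ∧ ¬ ed L X b y)) :
    ed L (insert y (X.erase x)) a b ∧ wt L (insert y (X.erase x)) a b = wt L X a b := by
  have key : ∀ a b : Fin m, a ∉ X → b ∈ X → a ≠ y → b ≠ x →
      ((¬ ed L X a x ∧ ¬ ed L X b x) ∨ (¬ ed L X a y ∧ ¬ ed L X b y) ∨
      (¬ ed L X a x ∧ ¬ ed L X a y) ∨ (¬ ed L X b x ∧ ¬ ed L X b y)) →
      a ∉ insert y (X.erase x) ∧ b ∈ insert y (X.erase x) ∧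
        fv L (insert y (X.erase x)) a b = fv L X a b := by
    intro a b ha hb hay hbx hn
    obtain ⟨h1, h2, h3⟩ := piv hPV hX hx hy hxy ha hay hb hbx
    refine ⟨h1, h2, ?_⟩
    rw [h3]
    have h4 : fv L X a x = 0 ∨ fv L X y b = 0 := by
      by_contra hc
      push Not at hc
      have e1 : ed L X a x := Or.inl ⟨ha, hx, hc.1⟩
      have e2 : ed L X b y := Or.inr ⟨hb, hy, hc.2⟩
      rcases hn with h | h | h | h
      · exact h.1 e1
      · exact h.2 e2
      · exact h.1 e1
      · exact h.2 e2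
    rcases h4 with h4 | h4 <;> simp [h4]
  rcases hab with ⟨h1, h2, h3⟩ | ⟨h1, h2, h3⟩
  · obtain ⟨k1, k2, k3⟩ := key a b h1 h2 hay hbx hn
    refine ⟨Or.inl ⟨k1, k2, by rw [k3]; exact h3⟩, ?_⟩
    rw [wt, wt, if_neg k1, if_neg h1, k3]
  · obtain ⟨k1, k2, k3⟩ := key b a h2 h1 hby hax (by tauto)
    refine ⟨Or.inr ⟨k2, k1, by rw [k3]; exact h3⟩, ?_⟩
    rw [wt, wt, if_pos k2, if_pos h1, k3]

end CycAux

open CycAux in
/-- Closed walks. -/
theorem t_CYC : S_GM → S_FV → S_PV → S_WK → S_CYC := by
  intro hGM hFV hPV hWK F ρ m L hCR k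
  obtain ⟨-, hG0, hGmul, -, hGmono, hGs, -⟩ := hGM F ρ hCR.1
  induction k using Nat.strong_induction_on with
  | _ k ih =>
    intro X a w hX hw
    obtain ⟨p, hp0, hpk, he, rfl⟩ := rep hw
    obtain ⟨-, hcomp, -⟩ := hWK m L X
    -- segments
    have hseg : ∀ i n, i + n ≤ k → Wk L X (p i) (p (i + n)) n
        (∏ s ∈ Finset.range n, wt L X (p (i + s)) (p (i + s + 1))) := by
      intro i n hin
      exact seg n (fun s => p (i + s)) (fun s hs => he (i + s) (by omega))
    have hsplit : ∀ i n l, k = i + n + l →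
        (∏ s ∈ Finset.range k, wt L X (p s) (p (s + 1))) =
        (∏ s ∈ Finset.range i, wt L X (p (0 + s)) (p (0 + s + 1))) *
        (∏ s ∈ Finset.range n, wt L X (p (i + s)) (p (i + s + 1))) *
        (∏ s ∈ Finset.range l, wt L X (p (i + n + s)) (p (i + n + s + 1))) := by
      intro i n l hk
      rw [hk, Finset.prod_range_add, Finset.prod_range_add]
      simp only [Nat.zero_add]
    have hirr : ∀ a : Fin m, ¬ ed L X a a := by
      rintro a (h | h)
      · exact h.1 h.2.1
      · exact h.2.1 h.1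
    have hmem : ∀ i < k, (p i ∈ X ↔ p (i + 1) ∉ X) := by
      intro i hi
      rcases he i hi with h | h
      · exact ⟨fun h' => absurd h' h.1, fun h' => absurd h.2.1 h'⟩
      · exact ⟨fun _ => h.2.1, fun _ => h.1⟩
    by_cases hrep : ∃ i n l, k = i + n + l ∧ 0 < n ∧ n < k ∧ p i = p (i + n)
    · -- a vertex occurs twice
      obtain ⟨i, n, l, hk, hn, hnk, hi⟩ := hrep
      have h1 := hseg 0 i (by omega)
      have h2 := hseg i n (by omega)
      have h3 := hseg (i + n) l (by omega)
      rw [← hi] at h2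
      rw [Nat.zero_add] at h1
      rw [← hi, ← hk, hpk, ← hp0] at h3
      have h4 := hcomp _ _ _ _ _ _ _ h1 h3
      have g2 := ih n hnk X _ _ hX h2
      have g4 := ih (i + l) (by omega) X _ _ hX h4
      rw [hsplit i n l hk]
      have g := hGmono _ (k - 2) _ (by omega) (hGmul _ _ _ _ g4 g2)
      convert g using 1
      ring
    by_cases hch : ∃ i n l, k = i + n + l ∧ 2 ≤ n ∧ n + 2 ≤ k ∧ ed L X (p i) (p (i + n))
    · -- a chord
      obtain ⟨i, n, l, hk, hn, hnk, hi⟩ := hch
      have h1 := hseg 0 i (by omega)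
      have h2 := hseg i n (by omega)
      have h3 := hseg (i + n) l (by omega)
      rw [Nat.zero_add] at h1
      rw [← hk, hpk, ← hp0] at h3
      have e1 := Wk.cons (p i) (p (i + n)) (p (i + n)) 0 1 hi (Wk.nil _)
      have e2 := Wk.cons (p (i + n)) (p i) (p i) 0 1 (ed_symm hi) (Wk.nil _)
      have h4 := hcomp _ _ _ _ _ _ _ h2 e2
      have h5 := hcomp _ _ _ _ _ _ _ (hcomp _ _ _ _ _ _ _ h1 e1) h3
      have g4 := ih _ (by omega) X _ _ hX h4
      have g5 := ih _ (by omega) X _ _ hX h5
      rw [hsplit i n l hk]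
      have g := hGmono _ (k - 2) _ (by omega) (hGmul _ _ _ _ g5 g4)
      convert g using 1
      have hm := wt_mul hi
      linear_combination (-((∏ s ∈ Finset.range i, wt L X (p (0 + s)) (p (0 + s + 1))) *
        (∏ s ∈ Finset.range n, wt L X (p (i + s)) (p (i + s + 1))) *
        (∏ s ∈ Finset.range l, wt L X (p (i + n + s)) (p (i + n + s + 1))))) * hm
    by_cases hk5 : 5 ≤ k
    · -- pivot
      have hne : ∀ i j, i < j → j ≤ k → j - i < k → p i ≠ p j := by
        intro i j hij hjk hlt h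
        exact hrep ⟨i, j - i, k - j, by omega, by omega, hlt, by rw [h]; congr 1; omega⟩
      have hnc : ∀ i j, i + 2 ≤ j → j ≤ k → j + 2 ≤ k + i → ¬ ed L X (p i) (p j) := by
        intro i j hij hjk hlt h
        refine hch ⟨i, j - i, k - j, by omega, by omega, by omega, ?_⟩
        have : i + (j - i) = j := by omega
        rw [this]; exact h
      have main : ∀ x y : Fin m, x ∈ X → y ∉ X → fv L X y x ≠ 0 →
          ((x = p 1 ∧ y = p 2) ∨ (x = p 2 ∧ y = p 1)) →
          ed L (insert y (X.erase x)) (p 0) (p 3) →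
          wt L (insert y (X.erase x)) (p 0) (p 3) =
            wt L X (p 0) (p 1) * wt L X (p 1) (p 2) * wt L X (p 2) (p 3) →
          Gm F ρ (k - 2) (∏ i ∈ Finset.range k, wt L X (p i) (p (i + 1))) := by
        intro x y hx hy hxy hor hed hwt
        have hstep : ∀ i, 3 ≤ i → i < k →
            ed L (insert y (X.erase x)) (p i) (p (i + 1)) ∧
            wt L (insert y (X.erase x)) (p i) (p (i + 1)) = wt L X (p i) (p (i + 1)) := by
          intro i h3 hik
          have n1 : p i ≠ p 1 := (hne 1 i (by omega) (by omega) (by omega)).symm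
          have n2 : p i ≠ p 2 := (hne 2 i (by omega) (by omega) (by omega)).symm
          have n3 : p (i + 1) ≠ p 1 := (hne 1 (i + 1) (by omega) (by omega) (by omega)).symm
          have n4 : p (i + 1) ≠ p 2 := (hne 2 (i + 1) (by omega) (by omega) (by omega)).symm
          -- p i is not adjacent to p 1; p (i+1) is not adjacent to p 2
          have c1 : ¬ ed L X (p i) (p 1) := fun h =>
            hnc 1 i (by omega) (by omega) (by omega) (ed_symm h)
          have c2 : ¬ ed L X (p (i + 1)) (p 2) := fun h =>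
            hnc 2 (i + 1) (by omega) (by omega) (by omega) (ed_symm h)
          have c3 : ¬ ed L X (p (i + 1)) (p 1) ∨ ¬ ed L X (p i) (p 2) := by
            by_cases hi3 : i = 3
            · left
              intro h
              exact hnc 1 (i + 1) (by omega) (by omega) (by omega) (ed_symm h)
            · right
              intro h
              exact hnc 2 i (by omega) (by omega) (by omega) (ed_symm h)
          refine keep hPV hX hx hy hxy (he i hik) ?_ ?_ ?_ ?_ ?_
          · rcases hor with ⟨rfl, rfl⟩ | ⟨rfl, rfl⟩ <;> assumption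
          · rcases hor with ⟨rfl, rfl⟩ | ⟨rfl, rfl⟩ <;> assumption
          · rcases hor with ⟨rfl, rfl⟩ | ⟨rfl, rfl⟩ <;> assumption
          · rcases hor with ⟨rfl, rfl⟩ | ⟨rfl, rfl⟩ <;> assumption
          · rcases hor with ⟨rfl, rfl⟩ | ⟨rfl, rfl⟩ <;> tauto
        have hX' := (hPV m L X x y hX hx hy hxy).1
        have h1 := seg (L := L) (X := insert y (X.erase x)) (k - 3) (fun s => p (3 + s))
          (fun s hs => (hstep (3 + s) (by omega) (by omega)).1)
        have h2 := Wk.cons (p 0) (p 3) _ _ _ hed h1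
        have h3k : 3 + (k - 3) = k := by omega
        simp only [h3k, hpk, hp0, Nat.add_zero] at h2
        have g := ih (k - 3 + 1) (by omega) _ _ _ hX' h2
        have g' := hGmono _ (k - 2) _ (by omega) g
        convert g' using 1
        rw [← hp0, hwt, hsplit 0 3 (k - 3) (by omega)]
        simp only [Finset.prod_range_zero, Nat.zero_add, one_mul]
        rw [Finset.prod_range_succ, Finset.prod_range_succ, Finset.prod_range_succ,
          Finset.prod_range_zero, one_mul]
        congr 1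
        refine Finset.prod_congr rfl (fun s hs => ?_)
        rw [Finset.mem_range] at hs
        exact (hstep (3 + s) (by omega) (by omega)).2.symm
      have e0 := he 0 (by omega)
      have e1 := he 1 (by omega)
      have e2 := he 2 (by omega)
      rw [Nat.zero_add] at e0
      have c03 : ¬ ed L X (p 0) (p 3) := hnc 0 3 (by omega) (by omega) (by omega)
      have n01 : p 0 ≠ p 1 := hne 0 1 (by omega) (by omega) (by omega)
      have n02 : p 0 ≠ p 2 := hne 0 2 (by omega) (by omega) (by omega)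
      have n13 : p 1 ≠ p 3 := hne 1 3 (by omega) (by omega) (by omega)
      have n23 : p 2 ≠ p 3 := hne 2 3 (by omega) (by omega) (by omega)
      rcases e0 with ⟨a1, a2, a3⟩ | ⟨a1, a2, a3⟩
      · -- p 0 ∉ X, p 1 ∈ X, p 2 ∉ X, p 3 ∈ X
        rcases e1 with ⟨b1, b2, b3⟩ | ⟨b1, b2, b3⟩
        · exact absurd a2 b1
        rcases e2 with ⟨d1, d2, d3⟩ | ⟨d1, d2, d3⟩
        swap
        · exact absurd d1 b2
        norm_num at b2 b3 d1 d2 d3
        obtain ⟨k1, k2, k3⟩ := piv hPV hX (x := p 1) (y := p 2) a2 b2 b3 a1 n02 d2 n13.symm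
        have z : fv L X (p 0) (p 3) = 0 := by
          by_contra h
          exact c03 (Or.inl ⟨a1, d2, h⟩)
        rw [z, zero_sub] at k3
        refine main (p 1) (p 2) a2 b2 b3 (Or.inl ⟨rfl, rfl⟩) (Or.inl ⟨k1, k2, ?_⟩) ?_
        · rw [k3]
          exact neg_ne_zero.2 (mul_ne_zero (div_ne_zero a3 b3) d3)
        · rw [wt, wt, wt, wt, if_neg k1, if_neg a1, if_pos a2, if_neg b2, k3, abs_neg, abs_mul,
            abs_div]
          ring
      · -- p 0 ∈ X, p 1 ∉ X, p 2 ∈ X, p 3 ∉ X
        rcases e1 with ⟨b1, b2, b3⟩ | ⟨b1, b2, b3⟩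
        swap
        · exact absurd b1 a2
        rcases e2 with ⟨d1, d2, d3⟩ | ⟨d1, d2, d3⟩
        · exact absurd b2 d1
        norm_num at b2 b3 d1 d2 d3
        obtain ⟨k1, k2, k3⟩ := piv hPV hX (x := p 2) (y := p 1) b2 a2 b3 d2 n13.symm a1 n02
        have z : fv L X (p 3) (p 0) = 0 := by
          by_contra h
          exact c03 (Or.inr ⟨a1, d2, h⟩)
        rw [z, zero_sub] at k3
        refine main (p 2) (p 1) b2 a2 b3 (Or.inr ⟨rfl, rfl⟩) (Or.inr ⟨k2, k1, ?_⟩) ?_
        · rw [k3]
          exact neg_ne_zero.2 (mul_ne_zero (div_ne_zero d3 b3) a3)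
        · rw [wt, wt, wt, wt, if_pos k2, if_pos a1, if_neg a2, if_pos b2, k3, abs_neg, abs_mul,
            abs_div, mul_inv, inv_div]
          ring
    · -- short walks
      have hk' : k = 0 ∨ k = 1 ∨ k = 2 ∨ k = 3 ∨ k = 4 := by omega
      rcases hk' with rfl | rfl | rfl | rfl | rfl
      · simpa using hG0
      · exfalso
        have := he 0 (by omega)
        rw [Nat.zero_add, hp0, hpk] at this
        exact hirr _ this
      · have e0 := he 0 (by omega)
        rw [Finset.prod_range_succ, Finset.prod_range_succ, Finset.prod_range_zero, one_mul]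
        have : p 0 = p 2 := by rw [hp0, hpk]
        norm_num at e0 ⊢
        rw [← this, wt_mul e0]
        exact hG0
      · exfalso
        have m0 := hmem 0 (by omega)
        have m1 := hmem 1 (by omega)
        have m2 := hmem 2 (by omega)
        norm_num at m0 m1 m2
        rw [hp0] at m0
        rw [hpk] at m2
        tauto
      · have e0 := he 0 (by omega)
        have e1 := he 1 (by omega)
        have e2 := he 2 (by omega)
        have e3 := he 3 (by omega)
        rw [Finset.prod_range_succ, Finset.prod_range_succ, Finset.prod_range_succ,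
          Finset.prod_range_succ, Finset.prod_range_zero, one_mul]
        norm_num at e0 e1 e2 e3 ⊢
        have h4 : p 4 = p 0 := by rw [hp0, hpk]
        rw [h4] at e3 ⊢
        refine hGmono 1 2 _ (by omega) ?_
        obtain ⟨hF1, hF2⟩ := hFV m L X hX
        rcases e0 with ⟨a1, a2, a3⟩ | ⟨a1, a2, a3⟩
        · rcases e1 with ⟨b1, b2, b3⟩ | ⟨b1, b2, b3⟩
          · exact absurd a2 b1
          rcases e2 with ⟨d1, d2, d3⟩ | ⟨d1, d2, d3⟩
          swap
          · exact absurd d1 b2
          rcases e3 with ⟨f1, f2, f3⟩ | ⟨f1, f2, f3⟩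
          · exact absurd d2 f1
          obtain ⟨s, hs, hs1, hs2⟩ := hCR.2 _ _ (hF1 (p 0) a1).2.2.2.1 (hF1 (p 2) b2).2.2.2.1
            (hF2 (p 0) (p 2) a1 b2) (p 1) (p 3) a3 f3 b3 d3
          have hval : wt L X (p 0) (p 1) * wt L X (p 1) (p 2) * wt L X (p 2) (p 3) *
              wt L X (p 3) (p 0) = |fv L X (p 0) (p 1) * fv L X (p 2) (p 3) /
              (fv L X (p 0) (p 3) * fv L X (p 2) (p 1))| := by
            rw [wt, wt, wt, wt, if_neg a1, if_pos a2, if_neg b2, if_pos d2, abs_div, abs_mul,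
              abs_mul, div_eq_mul_inv, mul_inv]
            ring
          rw [hval]
          exact hGs _ s hs hs1 hs2
        · rcases e1 with ⟨b1, b2, b3⟩ | ⟨b1, b2, b3⟩
          swap
          · exact absurd b1 a2
          rcases e2 with ⟨d1, d2, d3⟩ | ⟨d1, d2, d3⟩
          · exact absurd b2 d1
          rcases e3 with ⟨f1, f2, f3⟩ | ⟨f1, f2, f3⟩
          swap
          · exact absurd f1 d2
          obtain ⟨s, hs, hs1, hs2⟩ := hCR.2 _ _ (hF1 (p 1) a2).2.2.2.1 (hF1 (p 3) d2).2.2.2.1
            (hF2 (p 1) (p 3) a2 d2) (p 2) (p 0) b3 a3 d3 f3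
          have hval : wt L X (p 0) (p 1) * wt L X (p 1) (p 2) * wt L X (p 2) (p 3) *
              wt L X (p 3) (p 0) = |fv L X (p 1) (p 2) * fv L X (p 3) (p 0) /
              (fv L X (p 1) (p 0) * fv L X (p 3) (p 2))| := by
            rw [wt, wt, wt, wt, if_pos a1, if_neg a2, if_pos d1, if_neg d2, abs_div, abs_mul,
              abs_mul, div_eq_mul_inv, mul_inv]
            ring
          rw [hval]
          exact hGs _ s hs hs1 hs2

end Pool.Agent.Y648.XR
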