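import Mathlib

set_option autoImplicit false

/-!
# Scales of cross ratios and scales of circuit ratios

`L` is a subspace of `ℝ ^ m`. Its elementary vectors are the nonzero vectors of minimal support.
Two elementary vectors `C`, `D` form a modular pair if they span all vectors of `L` supported in the
union of their supports; the numbers `(C i / C j) / (D i / D j)` are the cross ratios of `L`. If
the cross ratios have `g` scales, then the ratios `C i / C j`, for all elementary vectors, for fixed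
`i`, `j`, have at most `N ^ g` scales, `N` polynomial in `m`.

A basis is a set `X` of coordinates such that no nonzero vector of `L` is supported in `X`, and for
every `u` not in `X` there is a vector `fv L X u` in `L` supported in `X ∪ {u}` with coordinate `1` at
`u`. The bipartite graph of the basis `X` has an edge between `u` not in `X` and `v` in `X` if
`fv L X u v ≠ 0`. Walks `Wk L X a b k w` in this graph: from `a` to `b`, of length `k`, the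
product of the ratios being `w`.
-/

namespace Pool.Agent.Y648.XR

/-- The elementary vectors. -/
def Ele {m : ℕ} (L : Submodule ℝ (Fin m → ℝ)) (C : Fin m → ℝ) : Prop :=
  C ∈ L ∧ C ≠ 0 ∧ ∀ D ∈ L, (∀ i, C i = 0 → D i = 0) → ∃ l : ℝ, D = l • C

/-- A modular pair. -/
def Mod {m : ℕ} (L : Submodule ℝ (Fin m → ℝ)) (C D : Fin m → ℝ) : Prop :=
  ∀ E ∈ L, (∀ i, C i = 0 → D i = 0 → E i = 0) → ∃ a b : ℝ, E = a • C + b • D

/-- The absolute values of the cross ratios lie in the intervals `[s, 2 ^ ρ s]`, for `s` in `F`. -/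
def CR (F : Finset ℝ) (ρ : ℕ) {m : ℕ} (L : Submodule ℝ (Fin m → ℝ)) : Prop :=
  (∀ s ∈ F, 0 < s) ∧ ∀ C D, Ele L C → Ele L D → Mod L C D → ∀ i j, C i ≠ 0 → C j ≠ 0 → D i ≠ 0 →
    D j ≠ 0 → ∃ s ∈ F, s ≤ |C i * D j / (C j * D i)| ∧ |C i * D j / (C j * D i)| ≤ 2 ^ ρ * s

/-- For any two coordinates `i`, `j`, the ratios of the entries of the elementary vectors of `L` lie
in at most `r` intervals `[s, 2 ^ r s]`. -/
def Scales (r : ℕ) {m : ℕ} (L : Submodule ℝ (Fin m → ℝ)) : Prop :=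
  ∃ S : Fin m → Fin m → Finset ℝ, (∀ i j, (S i j).card ≤ r ∧ ∀ s ∈ S i j, 0 < s) ∧
    ∀ C, Ele L C → ∀ i j, C i ≠ 0 → C j ≠ 0 →
      ∃ s ∈ S i j, s ≤ |C i / C j| ∧ |C i / C j| ≤ 2 ^ r * s

/-- `a` is up to a factor `2 ^ (N ρ)` a product of powers of the elements of `F`, the sum of the
absolute values of the exponents being at most `N`. -/
def Gm (F : Finset ℝ) (ρ N : ℕ) (a : ℝ) : Prop :=
  ∃ e : ℝ → ℤ, (∑ f ∈ F, |e f|) ≤ N ∧ (∏ f ∈ F, f ^ e f) ≤ a * 2 ^ (N * ρ) ∧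
    a ≤ (∏ f ∈ F, f ^ e f) * 2 ^ (N * ρ)

/-- Products, inverses. -/
def S_GM : Prop := ∀ (F : Finset ℝ) (ρ : ℕ), (∀ s ∈ F, 0 < s) →
  (∀ N a, Gm F ρ N a → 0 < a) ∧ Gm F ρ 0 1 ∧
  (∀ N M a b, Gm F ρ N a → Gm F ρ M b → Gm F ρ (N + M) (a * b)) ∧
  (∀ N a, Gm F ρ N a → Gm F ρ N a⁻¹) ∧
  (∀ N M a, N ≤ M → Gm F ρ N a → Gm F ρ M a) ∧
  (∀ a s, s ∈ F → s ≤ a → a ≤ 2 ^ ρ * s → Gm F ρ 1 a) ∧
  ∀ N : ℕ, ∃ S : Finset ℝ, S.card ≤ (2 * N + 1) ^ F.card ∧ (∀ s ∈ S, 0 < s) ∧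
    ∀ a, Gm F ρ N a → ∃ s ∈ S, s ≤ a ∧ a ≤ 2 ^ (2 * N * ρ) * s

/-! ### Bases -/

/-- A basis. -/
def IsB {m : ℕ} (L : Submodule ℝ (Fin m → ℝ)) (X : Finset (Fin m)) : Prop :=
  (∀ v ∈ L, (∀ i, i ∉ X → v i = 0) → v = 0) ∧
    ∀ u, u ∉ X → ∃ v ∈ L, v u = 1 ∧ ∀ i, i ∉ X → i ≠ u → v i = 0

open Classical in
/-- The fundamental vector of `u`. -/
noncomputable def fv {m : ℕ} (L : Submodule ℝ (Fin m → ℝ)) (X : Finset (Fin m)) (u : Fin m) :
    Fin m → ℝ :=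
  if h : ∃ v ∈ L, v u = 1 ∧ ∀ i, i ∉ X → i ≠ u → v i = 0 then Classical.choose h else 0

/-- Fundamental vectors. -/
def S_FV : Prop := ∀ (m : ℕ) (L : Submodule ℝ (Fin m → ℝ)) (X : Finset (Fin m)), IsB L X →
  (∀ u, u ∉ X → fv L X u ∈ L ∧ fv L X u u = 1 ∧ (∀ i, i ∉ X → i ≠ u → fv L X u i = 0) ∧
    Ele L (fv L X u) ∧ ∀ v ∈ L, v u = 1 → (∀ i, i ∉ X → i ≠ u → v i = 0) → v = fv L X u) ∧
  ∀ u u', u ∉ X → u' ∉ X → Mod L (fv L X u) (fv L X u')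

/-- Pivots. -/
def S_PV : Prop := ∀ (m : ℕ) (L : Submodule ℝ (Fin m → ℝ)) (X : Finset (Fin m)) (x y : Fin m),
  IsB L X → x ∈ X → y ∉ X → fv L X y x ≠ 0 →
  IsB L (insert y (X.erase x)) ∧
  fv L (insert y (X.erase x)) x = (fv L X y x)⁻¹ • fv L X y ∧
  ∀ u, u ∉ X → u ≠ y →
    fv L (insert y (X.erase x)) u = fv L X u - (fv L X u x / fv L X y x) • fv L X y ∧
    Mod L (fv L (insert y (X.erase x)) u) (fv L X u)

/-- Exchanges, and bases containing the support of an elementary vector but one element. -/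
def S_XC : Prop := ∀ (m : ℕ) (L : Submodule ℝ (Fin m → ℝ)),
  (∃ X, IsB L X) ∧
  (∀ X Y : Finset (Fin m), IsB L X → IsB L Y → X ≠ Y →
    ∃ x y, x ∈ X ∧ x ∉ Y ∧ y ∈ Y ∧ y ∉ X ∧ fv L X y x ≠ 0) ∧
  ∀ C, Ele L C → ∀ i, C i ≠ 0 → ∃ X, IsB L X ∧ i ∉ X ∧ ∀ j, fv L X i j = C j / C i

/-! ### Walks -/

/-- The edges of the graph of the basis `X`. -/
def ed {m : ℕ} (L : Submodule ℝ (Fin m → ℝ)) (X : Finset (Fin m)) (a b : Fin m) : Prop :=
  (a ∉ X ∧ b ∈ X ∧ fv L X a b ≠ 0) ∨ (a ∈ X ∧ b ∉ X ∧ fv L X b a ≠ 0)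

/-- The ratio of the edge from `a` to `b`. -/
noncomputable def wt {m : ℕ} (L : Submodule ℝ (Fin m → ℝ)) (X : Finset (Fin m)) (a b : Fin m) :
    ℝ := if a ∈ X then |fv L X b a|⁻¹ else |fv L X a b|

/-- Walks from `a` to `b`, of length `k`, with the product `w` of the ratios. -/
inductive Wk {m : ℕ} (L : Submodule ℝ (Fin m → ℝ)) (X : Finset (Fin m)) :
    Fin m → Fin m → ℕ → ℝ → Prop
  | nil (a : Fin m) : Wk L X a a 0 1
  | cons (a b c : Fin m) (k : ℕ) (w : ℝ) (h : ed L X a b) (hw : Wk L X b c k w) :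
      Wk L X a c (k + 1) (wt L X a b * w)

/-- Composition and reversal. -/
def S_WK : Prop := ∀ (m : ℕ) (L : Submodule ℝ (Fin m → ℝ)) (X : Finset (Fin m)),
  (∀ a b k w, Wk L X a b k w → 0 < w) ∧
  (∀ a b c k l w w', Wk L X a b k w → Wk L X b c l w' → Wk L X a c (k + l) (w * w')) ∧
  ∀ a b k w, Wk L X a b k w → Wk L X b a k w⁻¹

/-- Closed walks. -/
def S_CYC : Prop := ∀ (F : Finset ℝ) (ρ m : ℕ) (L : Submodule ℝ (Fin m → ℝ)), CR F ρ L →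
  ∀ (k : ℕ) (X : Finset (Fin m)) (a : Fin m) (w : ℝ), IsB L X → Wk L X a a k w →
    Gm F ρ (k - 2) w

/-- Short walks. -/
def S_SHT : Prop := ∀ (F : Finset ℝ) (ρ m : ℕ) (L : Submodule ℝ (Fin m → ℝ)), CR F ρ L →
  ∀ (k : ℕ) (X : Finset (Fin m)) (a b : Fin m) (w : ℝ), IsB L X → Wk L X a b k w →
    ∃ l v, l ≤ m ∧ Wk L X a b l v ∧ Gm F ρ (k + m) (w / v)

/-- Translation of walks to an adjacent basis. -/
def S_TRN : Prop := ∀ (F : Finset ℝ) (ρ m : ℕ) (L : Submodule ℝ (Fin m → ℝ)), CR F ρ L →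
  ∀ (X : Finset (Fin m)) (x y : Fin m), IsB L X → x ∈ X → y ∉ X → fv L X y x ≠ 0 →
  ∀ (k : ℕ) (a b : Fin m) (w : ℝ), Wk L (insert y (X.erase x)) a b k w →
    ∃ l v, l ≤ 3 * k ∧ Wk L X a b l v ∧ Gm F ρ k (w / v)

/-- From few scales of cross ratios to few scales of circuit ratios. -/
def S_XR : Prop := ∀ (F : Finset ℝ) (ρ m N : ℕ) (L : Submodule ℝ (Fin m → ℝ)), CR F ρ L →
  (m + 1) * (5 * m + 5) ≤ N → Scales ((2 * N + 1) ^ F.card * (2 * N * ρ + 1)) L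

end Pool.Agent.Y648.XR
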