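import Mathlib
import Pool.Agent.Y648.XR.Stm

set_option autoImplicit false

/-!
# Bases of a subspace: fundamental vectors, pivots, exchanges
-/

namespace Pool.Agent.Y648.XR

section fvlem

variable {m : ℕ} {L : Submodule ℝ (Fin m → ℝ)} {X : Finset (Fin m)}

theorem fv_spec (hX : IsB L X) {u : Fin m} (hu : u ∉ X) :
    fv L X u ∈ L ∧ fv L X u u = 1 ∧ ∀ i, i ∉ X → i ≠ u → fv L X u i = 0 := by
  have h := hX.2 u hu
  unfold fv
  rw [dif_pos h]
  exact Classical.choose_spec h

theorem fv_unique (hX : IsB L X) {u : Fin m} (hu : u ∉ X) (v : Fin m → ℝ) (hv : v ∈ L)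
    (hvu : v u = 1) (hv0 : ∀ i, i ∉ X → i ≠ u → v i = 0) : v = fv L X u := by
  obtain ⟨h1, h2, h3⟩ := fv_spec hX hu
  have h := hX.1 (v - fv L X u) (L.sub_mem hv h1) (by
    intro i hi
    rw [Pi.sub_apply]
    by_cases hiu : i = u
    · rw [hiu, hvu, h2, sub_self]
    · rw [hv0 i hi hiu, h3 i hi hiu, sub_self])
  exact sub_eq_zero.mp h

theorem fv_ele (hX : IsB L X) {u : Fin m} (hu : u ∉ X) : Ele L (fv L X u) := by
  obtain ⟨h1, h2, h3⟩ := fv_spec hX hu
  refine ⟨h1, ?_, ?_⟩
  · intro h0
    rw [h0] at h2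
    simp at h2
  · intro D hD hD0
    refine ⟨D u, ?_⟩
    have h := hX.1 (D - D u • fv L X u) (L.sub_mem hD (L.smul_mem _ h1)) (by
      intro i hi
      rw [Pi.sub_apply, Pi.smul_apply, smul_eq_mul]
      by_cases hiu : i = u
      · rw [hiu, h2, mul_one, sub_self]
      · rw [h3 i hi hiu, hD0 i (h3 i hi hiu), mul_zero, sub_self])
    exact sub_eq_zero.mp h

/-- A vector of `L` supported in `X ∪ {u, u'}`. -/
theorem two_span (hX : IsB L X) {u u' : Fin m} (hu : u ∉ X) (hu' : u' ∉ X) (hne : u ≠ u')
    (E : Fin m → ℝ) (hE : E ∈ L) (hE0 : ∀ i, i ∉ X → i ≠ u → i ≠ u' → E i = 0) :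
    E = E u • fv L X u + E u' • fv L X u' := by
  obtain ⟨h1, h2, h3⟩ := fv_spec hX hu
  obtain ⟨h1', h2', h3'⟩ := fv_spec hX hu'
  have h := hX.1 (E - (E u • fv L X u + E u' • fv L X u'))
    (L.sub_mem hE (L.add_mem (L.smul_mem _ h1) (L.smul_mem _ h1'))) (by
      intro i hi
      simp only [Pi.sub_apply, Pi.add_apply, Pi.smul_apply, smul_eq_mul]
      by_cases hiu : i = u
      · subst hiu
        rw [h2, h3' i hi hne]
        ring
      · by_cases hiu' : i = u'
        · subst hiu'
          rw [h2', h3 i hi hiu]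
          ring
        · rw [h3 i hi hiu, h3' i hi hiu', hE0 i hi hiu hiu']
          ring)
  exact sub_eq_zero.mp h

theorem mod_self {C : Fin m → ℝ} (hC : Ele L C) : Mod L C C := by
  intro E hE hE0
  obtain ⟨l, hl⟩ := hC.2.2 E hE (fun i hi => hE0 i hi hi)
  exact ⟨l, 0, by rw [hl]; simp⟩

/-- An independent set is contained in a basis. -/
theorem exists_basis (X0 : Finset (Fin m))
    (h0 : ∀ v ∈ L, (∀ i, i ∉ X0 → v i = 0) → v = 0) : ∃ X, IsB L X ∧ X0 ⊆ X := by
  classical
  let S : Finset (Finset (Fin m)) := Finset.univ.filter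
    (fun X => X0 ⊆ X ∧ ∀ v ∈ L, (∀ i, i ∉ X → v i = 0) → v = 0)
  have hS : S.Nonempty := ⟨X0, by
    simp only [S, Finset.mem_filter, Finset.mem_univ, true_and]
    exact ⟨Finset.Subset.refl _, h0⟩⟩
  obtain ⟨X, hXS, hmax⟩ := S.exists_max_image (fun X => X.card) hS
  simp only [S, Finset.mem_filter, Finset.mem_univ, true_and] at hXS
  refine ⟨X, ⟨hXS.2, ?_⟩, hXS.1⟩
  intro u hu
  by_contra hcon
  have hins : insert u X ∈ S := by
    simp only [S, Finset.mem_filter, Finset.mem_univ, true_and]
    refine ⟨hXS.1.trans (Finset.subset_insert _ _), ?_⟩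
    intro v hv hv0
    by_contra hne
    apply hcon
    have hvu : v u ≠ 0 := by
      intro h
      apply hne
      apply hXS.2 v hv
      intro i hi
      by_cases hiu : i = u
      · rw [hiu, h]
      · exact hv0 i (by rw [Finset.mem_insert]; push Not; exact ⟨hiu, hi⟩)
    refine ⟨(v u)⁻¹ • v, L.smul_mem _ hv, ?_, ?_⟩
    · rw [Pi.smul_apply, smul_eq_mul, inv_mul_cancel₀ hvu]
    · intro i hi hiu
      rw [Pi.smul_apply, hv0 i (by rw [Finset.mem_insert]; push Not; exact ⟨hiu, hi⟩), smul_zero]
  have := hmax _ hins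
  rw [Finset.card_insert_of_notMem hu] at this
  omega

end fvlem

theorem t_FV : S_FV := by
  intro m L X hX
  refine ⟨fun u hu => ?_, fun u u' hu hu' => ?_⟩
  · obtain ⟨h1, h2, h3⟩ := fv_spec hX hu
    exact ⟨h1, h2, h3, fv_ele hX hu, fun v hv hvu hv0 => fv_unique hX hu v hv hvu hv0⟩
  · by_cases hne : u = u'
    · subst hne
      exact mod_self (fv_ele hX hu)
    · intro E hE hE0
      refine ⟨E u, E u', two_span hX hu hu' hne E hE ?_⟩
      intro i hi hiu hiu'
      exact hE0 i ((fv_spec hX hu).2.2 i hi hiu) ((fv_spec hX hu').2.2 i hi hiu')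

theorem t_PV (_ : S_FV) : S_PV := by
  intro m L X x y hX hx hy ht
  have hxy : x ≠ y := fun h => hy (h ▸ hx)
  obtain ⟨y1, y2, y3⟩ := fv_spec hX hy
  have hxX' : x ∉ insert y (X.erase x) := by
    rw [Finset.mem_insert, Finset.mem_erase]
    push Not
    exact ⟨hxy, fun h => absurd rfl h⟩
  have hoff : ∀ i, i ∉ insert y (X.erase x) → i ≠ x → i ∉ X ∧ i ≠ y := by
    intro i hi hix
    rw [Finset.mem_insert, Finset.mem_erase] at hi
    push Not at hi
    exact ⟨hi.2 hix, hi.1⟩
  have hB : IsB L (insert y (X.erase x)) := by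
    refine ⟨?_, ?_⟩
    · intro v hv hv0
      have h := hX.1 (v - v y • fv L X y) (L.sub_mem hv (L.smul_mem _ y1)) (by
        intro i hi
        rw [Pi.sub_apply, Pi.smul_apply, smul_eq_mul]
        by_cases hiy : i = y
        · rw [hiy, y2, mul_one, sub_self]
        · rw [y3 i hi hiy, hv0 i (by
            rw [Finset.mem_insert, Finset.mem_erase]
            push Not
            exact ⟨hiy, fun _ => hi⟩), mul_zero, sub_self])
      have h2 := sub_eq_zero.mp h
      have h3 : v x = v y * fv L X y x := by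
        conv_lhs => rw [h2]
        rw [Pi.smul_apply, smul_eq_mul]
      rw [hv0 x hxX'] at h3
      have h4 : v y = 0 := by
        rcases mul_eq_zero.mp h3.symm with h5 | h5
        · exact h5
        · exact absurd h5 ht
      rw [h2, h4, zero_smul]
    · intro u hu
      by_cases hux : u = x
      · subst hux
        refine ⟨(fv L X y u)⁻¹ • fv L X y, L.smul_mem _ y1, ?_, ?_⟩
        · rw [Pi.smul_apply, smul_eq_mul, inv_mul_cancel₀ ht]
        · intro i hi hiu
          obtain ⟨h1, h2⟩ := hoff i hi hiu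
          rw [Pi.smul_apply, y3 i h1 h2, smul_zero]
      · obtain ⟨huX, huy⟩ := hoff u hu hux
        obtain ⟨u1, u2, u3⟩ := fv_spec hX huX
        refine ⟨fv L X u - (fv L X u x / fv L X y x) • fv L X y,
          L.sub_mem u1 (L.smul_mem _ y1), ?_, ?_⟩
        · rw [Pi.sub_apply, Pi.smul_apply, smul_eq_mul, u2, y3 u huX huy]
          ring
        · intro i hi hiu
          rw [Pi.sub_apply, Pi.smul_apply, smul_eq_mul]
          by_cases hix : i = x
          · subst hix
            rw [div_mul_cancel₀ _ ht, sub_self]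
          · obtain ⟨h1, h2⟩ := hoff i hi hix
            rw [u3 i h1 hiu, y3 i h1 h2]
            ring
  refine ⟨hB, ?_, ?_⟩
  · symm
    apply fv_unique hB hxX' _ (L.smul_mem _ y1)
    · rw [Pi.smul_apply, smul_eq_mul, inv_mul_cancel₀ ht]
    · intro i hi hiu
      obtain ⟨h1, h2⟩ := hoff i hi hiu
      rw [Pi.smul_apply, y3 i h1 h2, smul_zero]
  · intro u hu huy
    have hux : u ≠ x := fun h => hu (h ▸ hx)
    have huX' : u ∉ insert y (X.erase x) := by
      rw [Finset.mem_insert, Finset.mem_erase]
      push Not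
      exact ⟨huy, fun _ => hu⟩
    obtain ⟨u1, u2, u3⟩ := fv_spec hX hu
    have hform : fv L (insert y (X.erase x)) u =
        fv L X u - (fv L X u x / fv L X y x) • fv L X y := by
      symm
      apply fv_unique hB huX' _ (L.sub_mem u1 (L.smul_mem _ y1))
      · rw [Pi.sub_apply, Pi.smul_apply, smul_eq_mul, u2, y3 u hu huy]
        ring
      · intro i hi hiu
        rw [Pi.sub_apply, Pi.smul_apply, smul_eq_mul]
        by_cases hix : i = x
        · subst hix
          rw [div_mul_cancel₀ _ ht, sub_self]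
        · obtain ⟨h1, h2⟩ := hoff i hi hix
          rw [u3 i h1 hiu, y3 i h1 h2]
          ring
    refine ⟨hform, ?_⟩
    by_cases hlam : fv L X u x / fv L X y x = 0
    · rw [hform, hlam, zero_smul, sub_zero]
      exact mod_self (fv_ele hX hu)
    · intro E hE hE0
      have hE1 := two_span hX hu hy huy E hE (by
        intro i hi hiu hiy
        apply hE0 i _ (u3 i hi hiu)
        rw [hform, Pi.sub_apply, Pi.smul_apply, u3 i hi hiu, y3 i hi hiy, smul_zero, sub_zero])
      have hy' : fv L X y = (fv L X u x / fv L X y x)⁻¹ •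
          (fv L X u - fv L (insert y (X.erase x)) u) := by
        rw [hform, sub_sub_cancel, smul_smul, inv_mul_cancel₀ hlam, one_smul]
      refine ⟨-(E y * (fv L X u x / fv L X y x)⁻¹), E u + E y * (fv L X u x / fv L X y x)⁻¹, ?_⟩
      set lam := fv L X u x / fv L X y x with hlamdef
      set w := fv L (insert y (X.erase x)) u with hw
      conv_lhs => rw [hE1, hy']
      funext i
      simp only [Pi.add_apply, Pi.smul_apply, Pi.sub_apply, smul_eq_mul]
      ring

theorem t_XC (_ : S_FV) : S_XC := by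
  intro m L
  refine ⟨?_, ?_, ?_⟩
  · obtain ⟨X, hX, -⟩ := exists_basis (L := L) ∅ (by
      intro v _ hv0
      funext i
      exact hv0 i (Finset.notMem_empty i))
    exact ⟨X, hX⟩
  · intro X Y hX hY hne
    have hnot : ¬ Y ⊆ X := by
      intro hYX
      have : ∃ u ∈ X, u ∉ Y := by
        by_contra hcon
        push Not at hcon
        exact hne (Finset.Subset.antisymm hcon hYX)
      obtain ⟨u, huX, huY⟩ := this
      obtain ⟨v, hv, hvu, hv0⟩ := hY.2 u huY
      have : v = 0 := by
        apply hX.1 v hv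
        intro i hi
        exact hv0 i (fun h => hi (hYX h)) (fun h => hi (h ▸ huX))
      rw [this] at hvu
      simp at hvu
    obtain ⟨y, hyY, hyX⟩ := Finset.not_subset.mp hnot
    obtain ⟨y1, y2, y3⟩ := fv_spec hX hyX
    by_contra hcon
    push Not at hcon
    have : fv L X y = 0 := by
      apply hY.1 _ y1
      intro i hi
      by_cases hiX : i ∈ X
      · exact hcon i y hiX hi hyY hyX
      · exact y3 i hiX (fun h => hi (h ▸ hyY))
    rw [this] at y2
    simp at y2
  · intro C hC i hi
    classical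
    obtain ⟨X, hX, hsub⟩ := exists_basis (L := L)
      (Finset.univ.filter (fun j => C j ≠ 0 ∧ j ≠ i)) (by
        intro v hv hv0
        obtain ⟨l, hl⟩ := hC.2.2 v hv (fun j hj => hv0 j (by
          simp only [Finset.mem_filter, Finset.mem_univ, true_and]
          push Not
          exact fun h => absurd hj h))
        have hvi : v i = 0 := hv0 i (by
          simp only [Finset.mem_filter, Finset.mem_univ, true_and]
          push Not
          exact fun _ => rfl)
        rw [hl, Pi.smul_apply, smul_eq_mul] at hvi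
        rcases mul_eq_zero.mp hvi with h | h
        · rw [hl, h, zero_smul]
        · exact absurd h hi)
    have hoff : ∀ j, j ∉ X → j ≠ i → C j = 0 := by
      intro j hj hji
      by_contra hne
      exact hj (hsub (by
        simp only [Finset.mem_filter, Finset.mem_univ, true_and]
        exact ⟨hne, hji⟩))
    have hiX : i ∉ X := by
      intro h
      apply hC.2.1
      apply hX.1 C hC.1
      intro j hj
      exact hoff j hj (fun hji => hj (hji ▸ h))
    refine ⟨X, hX, hiX, ?_⟩
    have h := fv_unique hX hiX ((C i)⁻¹ • C) (L.smul_mem _ hC.1)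
      (by rw [Pi.smul_apply, smul_eq_mul, inv_mul_cancel₀ hi])
      (by
        intro j hj hji
        rw [Pi.smul_apply, hoff j hj hji, smul_zero])
    intro j
    rw [← h, Pi.smul_apply, smul_eq_mul]
    field_simp

end Pool.Agent.Y648.XR
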