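import Mathlib
import Pool.Agent.Y648.XR.Stm

set_option autoImplicit false

/-!
# Walks, and their translation to an adjacent basis (job 1841 of helper648, by helper141)
-/

namespace Pool.Agent.Y648.XR

open Finset

section walks

variable {m : ℕ} {L : Submodule ℝ (Fin m → ℝ)} {X : Finset (Fin m)} {a b c : Fin m}

theorem wt_pos (h : ed L X a b) : 0 < wt L X a b := by
  unfold wt
  rcases h with ⟨ha, hb, h⟩ | ⟨ha, hb, h⟩
  · rw [if_neg ha]
    exact abs_pos.2 h
  · rw [if_pos ha]
    exact inv_pos.2 (abs_pos.2 h)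

theorem ed_symm (h : ed L X a b) : ed L X b a := by
  rcases h with ⟨ha, hb, h⟩ | ⟨ha, hb, h⟩
  · exact Or.inr ⟨hb, ha, h⟩
  · exact Or.inl ⟨hb, ha, h⟩

theorem wt_symm (h : ed L X a b) : wt L X b a = (wt L X a b)⁻¹ := by
  unfold wt
  rcases h with ⟨ha, hb, h⟩ | ⟨ha, hb, h⟩
  · rw [if_pos hb, if_neg ha]
  · rw [if_neg hb, if_pos ha, inv_inv]

theorem Wk.pos {k : ℕ} {w : ℝ} (h : Wk L X a b k w) : 0 < w := by
  induction h with
  | nil a => exact one_pos
  | cons a b c k w h _ ih => exact mul_pos (wt_pos h) ih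

theorem Wk.comp {k l : ℕ} {w w' : ℝ} (h : Wk L X a b k w) (h' : Wk L X b c l w') :
    Wk L X a c (k + l) (w * w') := by
  induction h with
  | nil a => rwa [zero_add, one_mul]
  | cons a b d k w h hw ih =>
    have h1 := Wk.cons a b c (k + l) (w * w') h (ih h')
    rwa [← mul_assoc, Nat.add_right_comm] at h1

theorem Wk.one (h : ed L X a b) : Wk L X a b 1 (wt L X a b) := by
  have h1 := Wk.cons a b b 0 1 h (Wk.nil b)
  rwa [mul_one, zero_add] at h1

theorem Wk.rev {k : ℕ} {w : ℝ} (h : Wk L X a b k w) : Wk L X b a k w⁻¹ := by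
  induction h with
  | nil a => rw [inv_one]; exact Wk.nil a
  | cons a b c k w h hw ih =>
    have h1 := ih.comp (Wk.one (ed_symm h))
    rwa [wt_symm h, ← mul_inv, mul_comm w] at h1

end walks

theorem t_WK : S_WK := fun _ _ _ =>
  ⟨fun _ _ _ _ h => h.pos, fun _ _ _ _ _ _ _ h h' => h.comp h', fun _ _ _ _ h => h.rev⟩

theorem t_TRN : S_GM → S_FV → S_PV → S_WK → S_TRN := by
  intro hGM hFV hPV _ F ρ m L hCR X x y hX hx hy hyx
  obtain ⟨_, g0, gmul, ginv, gmono, gone, -⟩ := hGM F ρ hCR.1
  obtain ⟨hX', p1, p2⟩ := hPV m L X x y hX hx hy hyx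
  obtain ⟨fX, -⟩ := hFV m L X hX
  obtain ⟨fX', -⟩ := hFV m L _ hX'
  have hxy : x ≠ y := fun h => hy (h ▸ hx)
  have hyy : fv L X y y = 1 := (fX y hy).2.1
  have g1 : Gm F ρ 1 1 := gmono 0 1 1 (by norm_num) g0
  have exy : ed L X x y := Or.inr ⟨hx, hy, hyx⟩
  have wxy : wt L X x y = |fv L X y x|⁻¹ := by unfold wt; rw [if_pos hx]
  have hyx' : |fv L X y x| ≠ 0 := abs_ne_zero.2 hyx
  -- edges from `u ∉ X'` to `v ∈ X'`
  have key : ∀ u v, u ∉ insert y (X.erase x) → v ∈ insert y (X.erase x) →
      fv L (insert y (X.erase x)) u v ≠ 0 → ∃ l w, l ≤ 3 ∧ Wk L X u v l w ∧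
        Gm F ρ 1 (|fv L (insert y (X.erase x)) u v| / w) := by
    intro u v hu hv huv
    rw [Finset.mem_insert, Finset.mem_erase, not_or, not_and'] at hu
    rw [Finset.mem_insert, Finset.mem_erase] at hv
    by_cases hux : u = x
    · subst hux
      by_cases hvy : v = y
      · subst hvy
        refine ⟨1, _, by norm_num, Wk.one exy, ?_⟩
        rw [wxy, p1, Pi.smul_apply, hyy, smul_eq_mul, mul_one, abs_inv,
          div_self (inv_ne_zero hyx')]
        exact g1
      · obtain ⟨hvx, hvX⟩ := hv.resolve_left hvy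
        rw [p1, Pi.smul_apply, smul_eq_mul] at huv ⊢
        have hyv : fv L X y v ≠ 0 := right_ne_zero_of_mul huv
        have eyv : ed L X y v := Or.inl ⟨hy, hvX, hyv⟩
        refine ⟨1 + 1, _, by norm_num, (Wk.one exy).comp (Wk.one eyv), ?_⟩
        have wyv : wt L X y v = |fv L X y v| := by unfold wt; rw [if_neg hy]
        rw [wxy, wyv, abs_mul, abs_inv,
          div_self (mul_ne_zero (inv_ne_zero hyx') (abs_ne_zero.2 hyv))]
        exact g1
    · have huX : u ∉ X := fun h => hu.2 h hux
      have huy : u ≠ y := hu.1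
      obtain ⟨q1, q2⟩ := p2 u huX huy
      obtain ⟨-, fu1, fu2, fu3, -⟩ := fX u huX
      have huX' : u ∉ insert y (X.erase x) := by
        rw [Finset.mem_insert, Finset.mem_erase, not_or, not_and']
        exact ⟨huy, fun h _ => huX h⟩
      obtain ⟨-, fu1', fu2', fu3', -⟩ := fX' u huX'
      have hval : fv L (insert y (X.erase x)) u v =
          fv L X u v - (fv L X u x / fv L X y x) * fv L X y v := by
        rw [q1]
        rfl
      by_cases hvy : v = y
      · subst hvy
        have h0 : fv L X u v = 0 := fu2 v hy (Ne.symm huy)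
        rw [hval, h0, hyy, zero_sub, mul_one] at huv ⊢
        have hux0 : fv L X u x ≠ 0 := by
          intro h
          apply huv
          rw [h, zero_div, neg_zero]
        have eux : ed L X u x := Or.inl ⟨huX, hx, hux0⟩
        have wux : wt L X u x = |fv L X u x| := by unfold wt; rw [if_neg huX]
        refine ⟨1 + 1, _, by norm_num, (Wk.one eux).comp (Wk.one exy), ?_⟩
        rw [wxy, wux, abs_neg, abs_div, ← div_eq_mul_inv,
          div_self (div_ne_zero (abs_ne_zero.2 hux0) hyx')]
        exact g1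
      · obtain ⟨hvx, hvX⟩ := hv.resolve_left hvy
        by_cases h0 : fv L X u v = 0
        · rw [hval, h0, zero_sub] at huv ⊢
          have h1 : (fv L X u x / fv L X y x) * fv L X y v ≠ 0 := fun h => huv (by rw [h, neg_zero])
          have hyv : fv L X y v ≠ 0 := right_ne_zero_of_mul h1
          have hux0 : fv L X u x ≠ 0 := by
            intro h
            apply h1
            rw [h, zero_div, zero_mul]
          have eux : ed L X u x := Or.inl ⟨huX, hx, hux0⟩
          have wux : wt L X u x = |fv L X u x| := by unfold wt; rw [if_neg huX]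
          have eyv : ed L X y v := Or.inl ⟨hy, hvX, hyv⟩
          have wyv : wt L X y v = |fv L X y v| := by unfold wt; rw [if_neg hy]
          refine ⟨1 + 1 + 1, _, by norm_num, ((Wk.one eux).comp (Wk.one exy)).comp (Wk.one eyv), ?_⟩
          rw [wxy, wux, wyv, abs_neg, abs_mul, abs_div, ← div_eq_mul_inv,
            div_self (mul_ne_zero (div_ne_zero (abs_ne_zero.2 hux0) hyx') (abs_ne_zero.2 hyv))]
          exact g1
        · have euv : ed L X u v := Or.inl ⟨huX, hvX, h0⟩
          have wuv : wt L X u v = |fv L X u v| := by unfold wt; rw [if_neg huX]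
          refine ⟨1, _, by norm_num, Wk.one euv, ?_⟩
          rw [wuv]
          obtain ⟨s, hs, h1, h2⟩ := hCR.2 (fv L (insert y (X.erase x)) u) (fv L X u) fu3' fu3 q2
            v u huv (by rw [fu1']; exact one_ne_zero) h0 (by rw [fu1]; exact one_ne_zero)
          rw [fu1, fu1', mul_one, one_mul, abs_div] at h1 h2
          exact gone _ s hs h1 h2
  -- all edges
  have key2 : ∀ u v, ed L (insert y (X.erase x)) u v → ∃ l w, l ≤ 3 ∧ Wk L X u v l w ∧
        Gm F ρ 1 (wt L (insert y (X.erase x)) u v / w) := by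
    intro u v huv
    rcases huv with ⟨hu, hv, h⟩ | ⟨hu, hv, h⟩
    · have e1 : wt L (insert y (X.erase x)) u v = |fv L (insert y (X.erase x)) u v| := by
        unfold wt
        rw [if_neg hu]
      rw [e1]
      exact key u v hu hv h
    · have e1 : wt L (insert y (X.erase x)) u v = |fv L (insert y (X.erase x)) v u|⁻¹ := by
        unfold wt
        rw [if_pos hu]
      obtain ⟨l, w, h1, h2, h3⟩ := key v u hv hu h
      refine ⟨l, w⁻¹, h1, h2.rev, ?_⟩
      have h4 := ginv _ _ h3
      have e2 : wt L (insert y (X.erase x)) u v / w⁻¹ =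
          (|fv L (insert y (X.erase x)) v u| / w)⁻¹ := by
        rw [e1, inv_div, div_inv_eq_mul, mul_comm, div_eq_mul_inv]
      rw [e2]
      exact h4
  intro k a b w hw
  induction hw with
  | nil a => exact ⟨0, 1, le_rfl, Wk.nil a, by rw [div_one]; exact g0⟩
  | cons a b c k w h _ ih =>
    obtain ⟨l, v, h1, h2, h3⟩ := ih
    obtain ⟨l', v', h1', h2', h3'⟩ := key2 a b h
    refine ⟨l' + l, v' * v, by omega, h2'.comp h2, ?_⟩
    have h4 := gmul _ _ _ _ h3' h3
    rw [div_mul_div_comm, add_comm] at h4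
    exact h4

end Pool.Agent.Y648.XR
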