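import Pool.Agent.Y648.XR.T_SHT

set_option autoImplicit false

/-! From few scales of cross ratios to few scales of circuit ratios. -/

namespace Pool.Agent.Y648.XR

theorem wk_pos {m : ℕ} {L : Submodule ℝ (Fin m → ℝ)} {X : Finset (Fin m)} {a b : Fin m} {k : ℕ}
    {w : ℝ} (h : Wk L X a b k w) : 0 < w := by
  induction h with
  | nil a => exact one_pos
  | cons a b c k w h _ ih =>
    refine mul_pos ?_ ih
    unfold wt
    rcases h with ⟨h1, h2, h3⟩ | ⟨h1, h2, h3⟩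
    · rw [if_neg h1]; exact abs_pos.2 h3
    · rw [if_pos h1]; exact inv_pos.2 (abs_pos.2 h3)

theorem to_base (hG : S_GM) (hF : S_FV) (hP : S_PV) (hX : S_XC) (hS : S_SHT) (hT : S_TRN)
    {F : Finset ℝ} {ρ m : ℕ} {L : Submodule ℝ (Fin m → ℝ)} (hL : CR F ρ L) {X0 : Finset (Fin m)}
    (h0 : IsB L X0) : ∀ (d : ℕ) (X : Finset (Fin m)), IsB L X → (X \ X0).card = d →
      ∀ (k : ℕ) (a b : Fin m) (w : ℝ), k ≤ m → Wk L X a b k w →
        ∃ l v, l ≤ m ∧ Wk L X0 a b l v ∧ 0 < v ∧ Gm F ρ (5 * m * d) (w / v) := by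
  obtain ⟨g0, g1, gmul, ginv, gmono, -, -⟩ := hG F ρ hL.1
  intro d
  induction d with
  | zero =>
    intro X hXB hd k a b w hk hw
    have hsub : X ⊆ X0 := by
      rw [← Finset.sdiff_eq_empty_iff_subset]
      exact Finset.card_eq_zero.1 hd
    have hXX : X = X0 := by
      by_contra hne
      obtain ⟨x, y, hx, hx0, -⟩ := (hX m L).2.1 X X0 hXB h0 hne
      exact hx0 (hsub hx)
    subst hXX
    refine ⟨k, w, hk, hw, wk_pos hw, ?_⟩
    rw [div_self (wk_pos hw).ne']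
    exact gmono _ _ _ (Nat.zero_le _) g1
  | succ d ih =>
    intro X hXB hd k a b w hk hw
    have hne : X ≠ X0 := by
      rintro rfl
      simp at hd
    obtain ⟨x, y, hx, hx0, hy0, hy, hxy⟩ := (hX m L).2.1 X X0 hXB h0 hne
    obtain ⟨hXB', hfv, -⟩ := hP m L X x y hXB hx hy hxy
    set X' : Finset (Fin m) := insert y (X.erase x) with hX'
    have hne' : x ≠ y := fun h => hx0 (h ▸ hy0)
    have hback : insert x (X'.erase y) = X := by
      rw [hX', Finset.erase_insert (fun h => hy (Finset.mem_of_mem_erase h)),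
        Finset.insert_erase hx]
    have hyX' : y ∈ X' := Finset.mem_insert_self _ _
    have hxX' : x ∉ X' := by
      rw [hX', Finset.mem_insert, not_or]
      exact ⟨hne', Finset.notMem_erase x X⟩
    have hfvn : fv L X' x y ≠ 0 := by
      rw [hfv]
      have h1 := ((hF m L X hXB).1 y hy).2.1
      simp only [Pi.smul_apply, smul_eq_mul, h1, mul_one]
      exact inv_ne_zero hxy
    have hcard : (X' \ X0).card = d := by
      have h1 : X' \ X0 = (X \ X0).erase x := by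
        ext z
        simp only [hX', Finset.mem_sdiff, Finset.mem_insert, Finset.mem_erase]
        constructor
        · rintro ⟨h1 | h1, h2⟩
          · exact absurd (h1 ▸ hy0) h2
          · exact ⟨h1.1, h1.2, h2⟩
        · rintro ⟨h1, h2, h3⟩
          exact ⟨Or.inr ⟨h1, h2⟩, h3⟩
      rw [h1, Finset.card_erase_of_mem (Finset.mem_sdiff.2 ⟨hx, hx0⟩), hd]
      rfl
    have hw' : Wk L (insert x (X'.erase y)) a b k w := by rw [hback]; exact hw
    obtain ⟨l1, v1, hl1, hw1, hg1⟩ := hT F ρ m L hL X' y x hXB' hyX' hxX' hfvn k a b w hw'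
    obtain ⟨l2, v2, hl2, hw2, hg2⟩ := hS F ρ m L hL l1 X' a b v1 hXB' hw1
    obtain ⟨l3, v3, hl3, hw3, hv3, hg3⟩ := ih X' hXB' hcard l2 a b v2 hl2 hw2
    refine ⟨l3, v3, hl3, hw3, hv3, ?_⟩
    have h1 : w / v3 = w / v1 * (v1 / v2) * (v2 / v3) := by
      have p1 : v1 ≠ 0 := by
        rintro rfl
        have := g0 _ _ hg1
        simp at this
      have p2 : v2 ≠ 0 := by
        rintro rfl
        have := g0 _ _ hg2
        simp at this
      field_simp
    rw [h1]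
    refine gmono _ _ _ ?_ (gmul _ _ _ _ (gmul _ _ _ _ hg1 hg2) hg3)
    calc k + (l1 + m) + 5 * m * d ≤ m + (3 * m + m) + 5 * m * d := by omega
      _ = 5 * m * (d + 1) := by ring

theorem to_base' (hG : S_GM) (hF : S_FV) (hP : S_PV) (hX : S_XC) (hS : S_SHT) (hT : S_TRN)
    {F : Finset ℝ} {ρ m : ℕ} {L : Submodule ℝ (Fin m → ℝ)} (hL : CR F ρ L) {X0 : Finset (Fin m)}
    (h0 : IsB L X0) {C : Fin m → ℝ} (hC : Ele L C) {i j : Fin m} (hi : C i ≠ 0) (hj : C j ≠ 0) :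
    ∃ l v, l ≤ m ∧ Wk L X0 j i l v ∧ 0 < v ∧ Gm F ρ (5 * m * m) (|C i / C j| / v) := by
  obtain ⟨g0, g1, gmul, ginv, gmono, -, -⟩ := hG F ρ hL.1
  by_cases hij : i = j
  · subst hij
    refine ⟨0, 1, Nat.zero_le _, Wk.nil _, one_pos, ?_⟩
    rw [div_self hi, abs_one, div_one]
    exact gmono _ _ _ (Nat.zero_le _) g1
  obtain ⟨X, hXB, hjX, hfv⟩ := (hX m L).2.2 C hC j hj
  have h1 : fv L X j i = C i / C j := hfv i
  have h2 : fv L X j i ≠ 0 := by rw [h1]; exact div_ne_zero hi hj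
  have hiX : i ∈ X := by
    by_contra hiX
    exact h2 (((hF m L X hXB).1 j hjX).2.2.1 i hiX hij)
  have hm : 0 + 1 ≤ m := by
    have := i.2
    omega
  have hw : Wk L X j i (0 + 1) (wt L X j i * 1) :=
    Wk.cons j i i 0 1 (Or.inl ⟨hjX, hiX, h2⟩) (Wk.nil i)
  obtain ⟨l, v, hl, hv, hv0, hg⟩ := to_base hG hF hP hX hS hT hL h0 _ X hXB rfl _ j i _ hm hw
  refine ⟨l, v, hl, hv, hv0, ?_⟩
  have h3 : wt L X j i * 1 = |C i / C j| := by
    rw [mul_one, wt, if_neg hjX, h1]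
  rw [h3] at hg
  refine gmono _ _ _ (Nat.mul_le_mul_left _ ?_) hg
  calc (X \ X0).card ≤ (Finset.univ : Finset (Fin m)).card := Finset.card_le_card (Finset.subset_univ _)
    _ = m := by rw [Finset.card_univ, Fintype.card_fin]

theorem t_XR : S_GM → S_FV → S_PV → S_XC → S_WK → S_CYC → S_SHT → S_TRN → S_XR := by
  classical
  intro hG hF hP hX hW hCy hS hT F ρ m N L hL hN
  obtain ⟨g0, g1, gmul, ginv, gmono, -, gset⟩ := hG F ρ hL.1
  obtain ⟨X0, h0⟩ := (hX m L).1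
  obtain ⟨S, hScard, hSpos, hS2⟩ := gset N
  have href : ∀ i j : Fin m, ∃ c : ℝ, 0 < c ∧ ((∃ l v, l ≤ m ∧ Wk L X0 j i l v) →
      ∃ l, l ≤ m ∧ Wk L X0 j i l c) := by
    intro i j
    by_cases h : ∃ l v, l ≤ m ∧ Wk L X0 j i l v
    · obtain ⟨l, v, hl, hv⟩ := h
      exact ⟨v, (hW m L X0).1 _ _ _ _ hv, fun _ => ⟨l, hl, hv⟩⟩
    · exact ⟨1, one_pos, fun h' => absurd h' h⟩
  choose c hc0 hc using href
  have hpow : 1 ≤ (2 * N + 1) ^ F.card := Nat.one_le_pow _ _ (by omega)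
  refine ⟨fun i j => S.image (fun s => s * c i j), fun i j => ⟨?_, ?_⟩, ?_⟩
  · calc (S.image (fun s => s * c i j)).card ≤ S.card := Finset.card_image_le
      _ ≤ (2 * N + 1) ^ F.card := hScard
      _ ≤ (2 * N + 1) ^ F.card * (2 * N * ρ + 1) := Nat.le_mul_of_pos_right _ (by omega)
  · intro s hs
    obtain ⟨t, ht, rfl⟩ := Finset.mem_image.1 hs
    exact mul_pos (hSpos t ht) (hc0 i j)
  · intro C hC i j hi hj
    obtain ⟨l, v, hl, hv, hv0, hg⟩ := to_base' hG hF hP hX hS hT hL h0 hC hi hj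
    obtain ⟨l', hl', hc'⟩ := hc i j ⟨l, v, hl, hv⟩
    have h1 : Gm F ρ (2 * m) (v / c i j) := two_walks hG hW hCy hL h0 hv hc' (by omega)
    have h2 : |C i / C j| / c i j = |C i / C j| / v * (v / c i j) := by
      have := hv0.ne'
      field_simp
    have h3 : Gm F ρ N (|C i / C j| / c i j) := by
      rw [h2]
      refine gmono _ _ _ ?_ (gmul _ _ _ _ hg h1)
      refine le_trans ?_ hN
      nlinarith
    obtain ⟨s, hs, hs1, hs3⟩ := hS2 _ h3
    have hcp := hc0 i j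
    refine ⟨s * c i j, Finset.mem_image.2 ⟨s, hs, rfl⟩, ?_, ?_⟩
    · rwa [le_div_iff₀ hcp] at hs1
    · rw [div_le_iff₀ hcp] at hs3
      refine hs3.trans ?_
      rw [mul_assoc]
      have h4 : (2 : ℝ) ^ (2 * N * ρ) ≤ 2 ^ ((2 * N + 1) ^ F.card * (2 * N * ρ + 1)) := by
        refine pow_le_pow_right₀ one_le_two ?_
        calc 2 * N * ρ ≤ 2 * N * ρ + 1 := Nat.le_succ _
          _ ≤ (2 * N + 1) ^ F.card * (2 * N * ρ + 1) := Nat.le_mul_of_pos_left _ hpow
      exact mul_le_mul_of_nonneg_right h4 (mul_pos (hSpos s hs) hcp).le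

end Pool.Agent.Y648.XR
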