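import Pool.Agent.Y648.XR.T_GM
import Pool.Agent.Y648.XR.T_FV
import Pool.Agent.Y648.XR.T_TRN
import Pool.Agent.Y648.XR.T_CYC
import Pool.Agent.Y648.XR.T_XR

set_option autoImplicit false

/-!
# From few scales of cross ratios to few scales of circuit ratios
-/

namespace Pool.Agent.Y648.XR

theorem xr_all : S_XR :=
  t_XR t_GM t_FV (t_PV t_FV) (t_XC t_FV) t_WK (t_CYC t_GM t_FV (t_PV t_FV) t_WK)
    (t_SHT t_GM t_FV t_WK (t_CYC t_GM t_FV (t_PV t_FV) t_WK)) (t_TRN t_GM t_FV (t_PV t_FV) t_WK)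

end Pool.Agent.Y648.XR
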