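import Mathlib
import Pool.Agent.Y648.XR.Stm

set_option autoImplicit false

/-!
# Products of powers (job 1839 of helper648, by helper141)
-/

namespace Pool.Agent.Y648.XR

open Finset

theorem t_GM : S_GM := by
  intro F ρ hF
  have hpos : ∀ e : ℝ → ℤ, 0 < ∏ f ∈ F, f ^ e f := fun e =>
    Finset.prod_pos fun f hf => zpow_pos (hF f hf) _
  have h2 : ∀ n : ℕ, (0 : ℝ) < 2 ^ n := fun n => by positivity
  have h21 : ∀ n : ℕ, (1 : ℝ) ≤ 2 ^ n := fun n => one_le_pow₀ (by norm_num)
  have hGpos : ∀ N a, Gm F ρ N a → 0 < a := by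
    rintro N a ⟨e, _, h, _⟩
    have h3 := (hpos e).trans_le h
    exact (pos_iff_pos_of_mul_pos h3).2 (h2 _)
  refine ⟨hGpos, ?_, ?_, ?_, ?_, ?_, ?_⟩
  · exact ⟨fun _ => 0, by simp, by simp, by simp⟩
  · rintro N M a b ⟨e, h1, h3, h4⟩ ⟨e', h1', h3', h4'⟩
    have ha : 0 < a := hGpos N a ⟨e, h1, h3, h4⟩
    have hb : 0 < b := hGpos M b ⟨e', h1', h3', h4'⟩
    refine ⟨fun f => e f + e' f, ?_, ?_, ?_⟩
    · push_cast
      refine (Finset.sum_le_sum fun f _ => abs_add_le (e f) (e' f)).trans ?_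
      rw [Finset.sum_add_distrib]
      exact add_le_add h1 h1'
    · have e1 : ∏ f ∈ F, f ^ (e f + e' f) = (∏ f ∈ F, f ^ e f) * ∏ f ∈ F, f ^ e' f := by
        rw [← Finset.prod_mul_distrib]
        exact Finset.prod_congr rfl fun f hf => zpow_add₀ (hF f hf).ne' _ _
      rw [e1]
      refine (mul_le_mul h3 h3' (hpos e').le (mul_pos ha (h2 _)).le).trans (le_of_eq ?_)
      rw [add_mul, pow_add]
      ring
    · have e1 : ∏ f ∈ F, f ^ (e f + e' f) = (∏ f ∈ F, f ^ e f) * ∏ f ∈ F, f ^ e' f := by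
        rw [← Finset.prod_mul_distrib]
        exact Finset.prod_congr rfl fun f hf => zpow_add₀ (hF f hf).ne' _ _
      rw [e1]
      refine (mul_le_mul h4 h4' hb.le (mul_pos (hpos e) (h2 _)).le).trans (le_of_eq ?_)
      rw [add_mul, pow_add]
      ring
  · rintro N a ⟨e, h1, h3, h4⟩
    have ha : 0 < a := hGpos N a ⟨e, h1, h3, h4⟩
    have e1 : ∏ f ∈ F, f ^ (-e f) = (∏ f ∈ F, f ^ e f)⁻¹ := by
      rw [← Finset.prod_inv_distrib]
      exact Finset.prod_congr rfl fun f _ => zpow_neg _ _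
    refine ⟨fun f => -e f, by simpa using h1, ?_, ?_⟩
    · rw [e1, inv_mul_eq_div, le_div_iff₀ ha, inv_mul_le_iff₀ (hpos e)]
      exact h4
    · rw [e1, inv_mul_eq_div, le_div_iff₀ (hpos e), inv_mul_le_iff₀ ha]
      exact h3
  · rintro N M a hNM ⟨e, h1, h3, h4⟩
    have ha : 0 < a := hGpos N a ⟨e, h1, h3, h4⟩
    have h5 : (2 : ℝ) ^ (N * ρ) ≤ 2 ^ (M * ρ) :=
      pow_le_pow_right₀ (by norm_num) (Nat.mul_le_mul_right _ hNM)
    refine ⟨e, h1.trans (by exact_mod_cast hNM), h3.trans ?_, h4.trans ?_⟩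
    · exact mul_le_mul_of_nonneg_left h5 ha.le
    · exact mul_le_mul_of_nonneg_left h5 (hpos e).le
  · intro a s hs h3 h4
    have hs0 := hF s hs
    classical
    refine ⟨fun f => if f = s then 1 else 0, ?_, ?_, ?_⟩
    · have e1 : ∑ f ∈ F, |if f = s then (1 : ℤ) else 0| = 1 := by
        rw [Finset.sum_eq_single s]
        · simp
        · intro f _ hf
          rw [if_neg hf, abs_zero]
        · intro h
          exact absurd hs h
      rw [e1]
      norm_num
    · have e1 : ∏ f ∈ F, f ^ (if f = s then (1 : ℤ) else 0) = s := by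
        rw [Finset.prod_eq_single s]
        · simp
        · intro f _ hf
          rw [if_neg hf, zpow_zero]
        · intro h
          exact absurd hs h
      rw [e1]
      calc s ≤ a * 1 := by rw [mul_one]; exact h3
        _ ≤ a * 2 ^ (1 * ρ) := mul_le_mul_of_nonneg_left (h21 _) (hs0.le.trans h3)
    · have e1 : ∏ f ∈ F, f ^ (if f = s then (1 : ℤ) else 0) = s := by
        rw [Finset.prod_eq_single s]
        · simp
        · intro f _ hf
          rw [if_neg hf, zpow_zero]
        · intro h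
          exact absurd hs h
      rw [e1, one_mul, mul_comm]
      exact h4
  · intro N
    classical
    refine ⟨(Fintype.piFinset (fun _ : F => Finset.Icc (-(N : ℤ)) N)).image
      (fun e => (∏ f : F, (f : ℝ) ^ e f) / 2 ^ (N * ρ)), ?_, ?_, ?_⟩
    · refine Finset.card_image_le.trans (le_of_eq ?_)
      rw [Fintype.card_piFinset, Finset.prod_const, Finset.card_univ, Fintype.card_coe,
        Int.card_Icc]
      congr 1
      omega
    · intro s hs
      obtain ⟨e, _, rfl⟩ := Finset.mem_image.1 hs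
      exact div_pos (Finset.prod_pos fun f _ => zpow_pos (hF f f.2) _) (h2 _)
    · rintro a ⟨e, h1, h3, h4⟩
      refine ⟨(∏ f ∈ F, f ^ e f) / 2 ^ (N * ρ), ?_, ?_, ?_⟩
      · rw [Finset.mem_image]
        refine ⟨fun f => e f, ?_, ?_⟩
        · rw [Fintype.mem_piFinset]
          intro f
          rw [Finset.mem_Icc, ← abs_le]
          exact (Finset.single_le_sum (f := fun f => |e f|) (fun f _ => abs_nonneg _) f.2).trans h1
        · congr 1
          exact Finset.prod_coe_sort F (fun f => f ^ e f)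
      · rw [div_le_iff₀ (h2 _)]
        exact h3
      · refine h4.trans (le_of_eq ?_)
        rw [mul_comm (2 ^ (2 * N * ρ)), div_mul_eq_mul_div, eq_div_iff (h2 _).ne', mul_assoc,
          ← pow_add]
        congr 2
        ring

end Pool.Agent.Y648.XR
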