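import Pool.Agent.Y648.XR.Stm

set_option autoImplicit false

/-! Short walks in the graph of a basis. -/

namespace Pool.Agent.Y648.XR

theorem ed_symm {m : ℕ} {L : Submodule ℝ (Fin m → ℝ)} {X : Finset (Fin m)} {a b : Fin m}
    (h : ed L X a b) : ed L X b a := by
  rcases h with ⟨h1, h2, h3⟩ | ⟨h1, h2, h3⟩
  · exact Or.inr ⟨h2, h1, h3⟩
  · exact Or.inl ⟨h2, h1, h3⟩

/-- The graph of the basis `X`. -/
def gr {m : ℕ} (L : Submodule ℝ (Fin m → ℝ)) (X : Finset (Fin m)) : SimpleGraph (Fin m) where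
  Adj a b := ed L X a b
  symm := ⟨fun _ _ h => ed_symm h⟩
  loopless := ⟨fun a h => by
    rcases h with ⟨h1, h2, -⟩ | ⟨h1, h2, -⟩
    · exact h1 h2
    · exact h2 h1⟩

theorem reach_of_wk {m : ℕ} {L : Submodule ℝ (Fin m → ℝ)} {X : Finset (Fin m)} {a b : Fin m}
    {k : ℕ} {w : ℝ} (h : Wk L X a b k w) : (gr L X).Reachable a b := by
  induction h with
  | nil a => exact SimpleGraph.Reachable.refl a
  | cons a b c k w h _ ih =>
    have h1 : (gr L X).Adj a b := h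
    exact h1.reachable.trans ih

theorem wk_of_walk {m : ℕ} {L : Submodule ℝ (Fin m → ℝ)} {X : Finset (Fin m)} {a b : Fin m}
    (p : (gr L X).Walk a b) : ∃ v, Wk L X a b p.length v := by
  induction p with
  | nil => exact ⟨1, Wk.nil _⟩
  | cons h p ih =>
    obtain ⟨v, hv⟩ := ih
    exact ⟨_, Wk.cons _ _ _ _ _ h hv⟩

theorem exists_short {m : ℕ} {L : Submodule ℝ (Fin m → ℝ)} {X : Finset (Fin m)} {a b : Fin m}
    {k : ℕ} {w : ℝ} (h : Wk L X a b k w) : ∃ l v, l ≤ m ∧ Wk L X a b l v := by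
  classical
  obtain ⟨p⟩ := reach_of_wk h
  have h1 : (p.toPath : (gr L X).Walk a b).length < Fintype.card (Fin m) :=
    p.toPath.2.length_lt
  rw [Fintype.card_fin] at h1
  obtain ⟨v, hv⟩ := wk_of_walk (p.toPath : (gr L X).Walk a b)
  exact ⟨_, v, h1.le, hv⟩

/-- Two walks with the same ends. -/
theorem two_walks (hG : S_GM) (hW : S_WK) (hC : S_CYC) {F : Finset ℝ} {ρ m : ℕ}
    {L : Submodule ℝ (Fin m → ℝ)} (hL : CR F ρ L) {X : Finset (Fin m)} (hX : IsB L X)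
    {a b : Fin m} {k l n : ℕ} {w v : ℝ} (h1 : Wk L X a b k w) (h2 : Wk L X a b l v)
    (hn : k + l ≤ n) : Gm F ρ n (w / v) := by
  obtain ⟨-, hcomp, hrev⟩ := hW m L X
  have h3 := hcomp _ _ _ _ _ _ _ h1 (hrev _ _ _ _ h2)
  have h4 := hC F ρ m L hL _ X a _ hX h3
  rw [div_eq_mul_inv]
  exact (hG F ρ hL.1).2.2.2.2.1 _ _ _ (by omega) h4

theorem t_SHT : S_GM → S_FV → S_WK → S_CYC → S_SHT := by
  intro hG _ hW hC F ρ m L hL k X a b w hX h
  obtain ⟨l, v, hl, hv⟩ := exists_short h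
  exact ⟨l, v, hl, hv, two_walks hG hW hC hL hX h hv (by omega)⟩

end Pool.Agent.Y648.XR
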